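import Mathlib

namespace Pool.Agent.Results.MP_61ce55_lc.NotLog

open Finset

/-- the coordinates of `x` in non-increasing order -/
noncomputable def desc {d : ℕ} (x : Fin d → ℝ) (k : Fin d) : ℝ := x (Tuple.sort x k.rev)

/-- ordered norm with weights `w` -/
noncomputable def ord {d : ℕ} (w x : Fin d → ℝ) : ℝ := ∑ k, w k * desc x k

/-- load vector of the schedule `σ` -/
def load {d n : ℕ} (p : Fin d → Fin n → ℝ) (σ : Fin n → Fin d) (i : Fin d) : ℝ :=
  ∑ j with σ j = i, p i j

/-- `X` is an `α`-approximate portfolio of `D` for the ordered norms -/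
def IsPortfolio {d : ℕ} (α : ℝ) (D X : Set (Fin d → ℝ)) : Prop :=
  X ⊆ D ∧ ∀ w : Fin d → ℝ, Antitone w → (∀ k, 0 ≤ w k) → w ≠ 0 →
    ∀ y ∈ D, ∃ x ∈ X, ord w x ≤ α * ord w y

/-! ### top sums -/

noncomputable def T {d : ℕ} (κ : ℕ) (x : Fin d → ℝ) : ℝ := ∑ k : Fin d with k.val < κ, desc x k

noncomputable def pm {d : ℕ} (x : Fin d → ℝ) : Equiv.Perm (Fin d) := Fin.revPerm.trans (Tuple.sort x)

theorem desc_anti {d : ℕ} (x : Fin d → ℝ) : Antitone (desc x) := fun _ _ h =>
  Tuple.monotone_sort x (Fin.rev_le_rev.2 h)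

theorem card_lt {d : ℕ} (κ : ℕ) : #{k : Fin d | k.val < κ} ≤ κ := by
  simpa using card_le_card_of_injOn (s := {k : Fin d | k.val < κ}) (t := range κ) Fin.val
    (fun k hk => by simpa using hk) Fin.val_injective.injOn

theorem Tlow {d : ℕ} {x : Fin d → ℝ} (hx : ∀ i, 0 ≤ x i) {κ : ℕ} (S : Finset (Fin d))
    (hS : #S ≤ κ) : ∑ i ∈ S, x i ≤ T κ x := by
  have e : ∑ i ∈ S, x i = ∑ k ∈ S.map (pm x).symm.toEmbedding, desc x k := by
    rw [sum_map]
    refine sum_congr rfl fun i _ => ?_
    show x i = x (pm x ((pm x).symm i))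
    rw [Equiv.apply_symm_apply]
  rw [e]
  have hA : #(S.map (pm x).symm.toEmbedding) ≤ κ := by rwa [card_map]
  generalize S.map (pm x).symm.toEmbedding = A at hA
  have h0 : ∀ k, 0 ≤ desc x k := fun k => hx _
  by_cases c : κ < d
  · set τ := desc x ⟨κ, c⟩
    have hB : #{k : Fin d | k.val < κ} = κ := by
      rw [Fin.card_filter_val_lt]; omega
    have a1 : ∑ k ∈ A, (desc x k - τ) ≤ ∑ k : Fin d with k.val < κ, (desc x k - τ) := by
      rw [← sum_filter_add_sum_filter_not A fun k => k.val < κ]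
      have b1 : ∑ k ∈ A with ¬ k.val < κ, (desc x k - τ) ≤ 0 :=
        sum_nonpos fun k hk => sub_nonpos.2 (desc_anti x (not_lt.1 (mem_filter.1 hk).2))
      have b2 : ∑ k ∈ A with k.val < κ, (desc x k - τ) ≤
          ∑ k : Fin d with k.val < κ, (desc x k - τ) :=
        sum_le_sum_of_subset_of_nonneg (filter_subset_filter _ (subset_univ _))
          fun k hk _ => sub_nonneg.2 (desc_anti x (le_of_lt (mem_filter.1 hk).2))
      linarith
    rw [sum_sub_distrib, sum_sub_distrib, sum_const, sum_const, hB, nsmul_eq_mul,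
      nsmul_eq_mul] at a1
    have a2 : (#A : ℝ) * τ ≤ κ * τ := mul_le_mul_of_nonneg_right (by exact_mod_cast hA) (h0 _)
    unfold T; linarith
  · exact sum_le_sum_of_subset_of_nonneg (fun k _ => by simp; omega) fun k _ _ => h0 k

theorem Tup {d : ℕ} {x v : Fin d → ℝ} {a : ℝ} (ha : 0 ≤ a) (hv : ∀ i, 0 ≤ v i)
    (h : ∀ i, x i ≤ a + v i) (κ : ℕ) : T κ x ≤ κ * a + ∑ i, v i := by
  have a1 : T κ x ≤ ∑ k : Fin d with k.val < κ, (a + v (pm x k)) := sum_le_sum fun k _ => h _
  rw [sum_add_distrib, sum_const, nsmul_eq_mul] at a1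
  have a2 : (#{k : Fin d | k.val < κ} : ℝ) * a ≤ κ * a :=
    mul_le_mul_of_nonneg_right (by exact_mod_cast card_lt κ) ha
  have a3 : ∑ k : Fin d with k.val < κ, v (pm x k) ≤ ∑ i, v i := by
    rw [← Equiv.sum_comp (pm x) v]
    exact sum_le_sum_of_subset_of_nonneg (subset_univ _) fun k _ _ => hv _
  linarith

/-! ### the instance -/

section inst
variable (L g : ℕ)

abbrev M := Σ j : Fin L, Fin (g ^ (4 * j.val)) × Option (Fin (g ^ 2))
abbrev Jb := Σ j : Fin L, Fin (g ^ (4 * j.val)) × Fin (g ^ 2)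

variable {L g}
def wide (b : Jb L g) : M L g := ⟨b.1, b.2.1, some b.2.2⟩
def nar (b : Jb L g) : M L g := ⟨b.1, b.2.1, none⟩

theorem wn (b b' : Jb L g) : nar b ≠ wide b' := by
  rintro e
  obtain ⟨i, a, c⟩ := b
  obtain ⟨i', a', c'⟩ := b'
  obtain ⟨rfl, h⟩ := Sigma.mk.inj_iff.1 e
  simp at h

theorem wide_inj : Function.Injective (wide : Jb L g → M L g) := by
  rintro ⟨i, a, c⟩ ⟨i', a', c'⟩ e
  obtain ⟨rfl, h⟩ := Sigma.mk.inj_iff.1 e
  simp at h
  rw [h.1, h.2]

theorem nar_inj {b b' : Jb L g} (e : nar b = nar b') (h2 : b.2.2 = b'.2.2) : b = b' := by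
  obtain ⟨i, a, c⟩ := b
  obtain ⟨i', a', c'⟩ := b'
  obtain ⟨rfl, h⟩ := Sigma.mk.inj_iff.1 e
  simp at h h2
  rw [h, h2]

def P (m : M L g) (b : Jb L g) : ℕ :=
  if m = wide b then g ^ (2 * (L - b.1.val) + 1) else if m = nar b then g ^ (2 * (L - b.1.val))
  else g ^ (6 * L + 3)

def ld (τ : Jb L g → M L g) (m : M L g) : ℕ := ∑ b with τ b = m, P m b

def sch (s : Fin L → Bool) (b : Jb L g) : M L g := if s b.1 then wide b else nar b

theorem sch_fst (s : Fin L → Bool) (b : Jb L g) : (sch s b).1 = b.1 := by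
  unfold sch; split_ifs <;> rfl

theorem P_sch (s : Fin L → Bool) (b : Jb L g) : P (sch s b) b =
    if s b.1 then g ^ (2 * (L - b.1.val) + 1) else g ^ (2 * (L - b.1.val)) := by
  unfold sch P
  split_ifs with h1 h2 h3 h4 <;> first | rfl | contradiction | exact absurd h4 (wn _ _)

theorem ld_sch (s : Fin L → Bool) (m : M L g) : ld (sch s) m ≤
    if s m.1 then g ^ (2 * (L - m.1.val) + 1) else g ^ (2 * (L - m.1.val) + 2) := by
  unfold ld
  split_ifs with h
  · refine (sum_le_card_nsmul _ _ (g ^ (2 * (L - m.1.val) + 1)) fun b hb => ?_).trans ?_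
    · obtain rfl := (mem_filter.1 hb).2
      rw [sch_fst] at h
      rw [P_sch, if_pos h, sch_fst]
    · have : #{b | sch s b = m} ≤ 1 := by
        rw [card_le_one]
        intro a ha b hb
        have ha := (mem_filter.1 ha).2
        have hb := (mem_filter.1 hb).2
        have ha' : s a.1 = true := by rw [← sch_fst s a, ha]; exact h
        have hb' : s b.1 = true := by rw [← sch_fst s b, hb]; exact h
        rw [sch, if_pos ha'] at ha
        rw [sch, if_pos hb'] at hb
        exact wide_inj (ha.trans hb.symm)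
      rw [smul_eq_mul]
      exact (Nat.mul_le_mul_right _ this).trans (by omega)
  · refine (sum_le_card_nsmul _ _ (g ^ (2 * (L - m.1.val))) fun b hb => ?_).trans ?_
    · obtain rfl := (mem_filter.1 hb).2
      rw [sch_fst] at h
      rw [P_sch, if_neg h, sch_fst]
    · have : #{b | sch s b = m} ≤ #(univ : Finset (Fin (g ^ 2))) := by
        refine card_le_card_of_injOn (fun b => b.2.2) (fun _ _ => by simp) fun a ha b hb e => ?_
        have ha : sch s a = m := by simpa using ha
        have hb : sch s b = m := by simpa using hb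
        have ha' : ¬ s a.1 = true := by rw [← sch_fst s a, ha]; exact h
        have hb' : ¬ s b.1 = true := by rw [← sch_fst s b, hb]; exact h
        rw [sch, if_neg ha'] at ha
        rw [sch, if_neg hb'] at hb
        exact nar_inj (ha.trans hb.symm) e
      rw [card_univ, Fintype.card_fin] at this
      rw [smul_eq_mul, pow_add, mul_comm]
      exact Nat.mul_le_mul_left _ this

def kap (g : ℕ) (j : ℕ) (β : Bool) : ℕ := if β then g ^ (4 * j) else g ^ (4 * j + 2)
def opt (L g : ℕ) (j : ℕ) (β : Bool) : ℕ :=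
  if β then g ^ (2 * L + 2 * j + 1) else g ^ (2 * L + 2 * j + 2)

theorem good (hg : 1 ≤ g) (s : Fin L → Bool) (j : Fin L) : ∃ (a : ℕ) (v : M L g → ℕ),
    (∀ m, ld (sch s) m ≤ a + v m) ∧
      kap g j (s j) * a + ∑ m, v m ≤ (L + 1) * opt L g j (s j) := by
  have hj := j.2
  refine ⟨if s j then g ^ (2 * (L - j.val) + 1) else g ^ (2 * (L - j.val)),
    fun m => if m.1 < j ∨ (m.1 = j ∧ s j = false) then ld (sch s) m else 0, fun m => ?_, ?_⟩
  · beta_reduce
    by_cases c : m.1 < j ∨ (m.1 = j ∧ s j = false)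
    · rw [if_pos c]; omega
    · rw [if_neg c, add_zero]
      refine (ld_sch s m).trans ?_
      push Not at c
      have hm := m.1.2
      rcases eq_or_lt_of_le c.1 with e | e
      · have : s j = true := by simpa using c.2 e.symm
        rw [← e, if_pos this, if_pos this]
      · have : j.val < m.1.val := e
        split_ifs <;> exact Nat.pow_le_pow_right hg (by omega)
  · have a1 : kap g j (s j) * (if s j then g ^ (2 * (L - j.val) + 1) else g ^ (2 * (L - j.val))) =
        opt L g j (s j) := by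
      unfold kap opt
      split_ifs <;> rw [← pow_add] <;> congr 1 <;> omega
    have a2 : ∑ m : M L g, (if m.1 < j ∨ (m.1 = j ∧ s j = false) then ld (sch s) m else 0) =
        ∑ b : Jb L g, if b.1 < j ∨ (b.1 = j ∧ s j = false) then P (sch s b) b else 0 := by
      rw [← sum_fiberwise univ (sch s)]
      refine sum_congr rfl fun m _ => ?_
      split_ifs with c
      · refine sum_congr rfl fun b hb => ?_
        obtain rfl := (mem_filter.1 hb).2
        rw [sch_fst] at c
        rw [if_pos c]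
      · refine (sum_eq_zero fun b hb => ?_).symm
        obtain rfl := (mem_filter.1 hb).2
        rw [sch_fst] at c
        rw [if_neg c]
    rw [a1, a2, Fintype.sum_sigma, add_mul, one_mul, add_comm]
    apply Nat.add_le_add_right
    refine (sum_le_card_nsmul _ _ (opt L g j (s j)) fun i _ => ?_).trans (by simp)
    simp only [P_sch, sum_const, card_univ, Fintype.card_prod, Fintype.card_fin, smul_eq_mul]
    have hi := i.2
    by_cases c : i < j ∨ (i = j ∧ s j = false)
    · rw [if_pos c]
      rcases c with c | ⟨rfl, c⟩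
      · have : i.val < j.val := c
        unfold opt
        split_ifs <;> rw [← pow_add, ← pow_add] <;> exact Nat.pow_le_pow_right hg (by omega)
      · simp only [opt, c, Bool.false_eq_true, if_false]
        rw [← pow_add, ← pow_add]; exact Nat.pow_le_pow_right hg (by omega)
    · rw [if_neg c]; simp

theorem jobs_le (τ : Jb L g → M L g) (B : Finset (Jb L g)) :
    ∑ b ∈ B, P (τ b) b ≤ ∑ m ∈ B.image τ, ld τ m := by
  rw [← sum_fiberwise_of_maps_to (t := B.image τ) (g := τ) fun b hb => mem_image_of_mem τ hb]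
  refine sum_le_sum fun m _ => ?_
  rw [sum_congr rfl (g := fun b => P m b) fun b hb => by rw [(mem_filter.1 hb).2]]
  exact sum_le_sum_of_subset (filter_subset_filter _ (subset_univ _))

theorem bad (hg : 1 ≤ g) (τ : Jb L g → M L g) (j : Fin L) : ∃ (β : Bool) (S : Finset (M L g)),
    #S ≤ kap g j β ∧ g * opt L g j β ≤ 2 * ∑ m ∈ S, ld τ m := by
  have hj := j.2
  by_cases c : ∀ b, τ b = wide b ∨ τ b = nar b
  · let em : Fin (g ^ (4 * j.val)) × Fin (g ^ 2) ↪ Jb L g := ⟨fun y => ⟨j, y⟩, fun _ _ h =>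
      eq_of_heq (Sigma.mk.inj_iff.1 h).2⟩
    have hc := card_filter_add_card_filter_not (s := univ.map em) fun b => τ b = wide b
    rw [card_map, card_univ, Fintype.card_prod, Fintype.card_fin, Fintype.card_fin,
      ← pow_add] at hc
    set W := (univ.map em).filter fun b => τ b = wide b with hW
    set N := (univ.map em).filter fun b => ¬ τ b = wide b with hN
    by_cases c2 : #N ≤ #W
    · refine ⟨false, W.image τ, card_image_le.trans (by simp only [kap]; simp; omega), ?_⟩
      have a1 := jobs_le τ W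
      rw [sum_congr rfl (g := fun _ => g ^ (2 * (L - j.val) + 1)) fun b hb => by
        obtain ⟨h1, h2⟩ := mem_filter.1 hb
        obtain ⟨y, -, rfl⟩ := mem_map.1 h1
        rw [P, if_pos h2]; rfl, sum_const, smul_eq_mul] at a1
      have a2 : g * opt L g j false = g ^ (4 * j.val + 2) * g ^ (2 * (L - j.val) + 1) := by
        simp only [opt, Bool.false_eq_true, if_false]
        rw [← pow_succ', ← pow_add]; congr 1; omega
      rw [a2, ← hc]
      nlinarith [Nat.mul_le_mul_right (g ^ (2 * (L - j.val) + 1)) c2]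
    · refine ⟨true, N.image τ, ?_, ?_⟩
      · have : N.image τ ⊆ univ.image fun a : Fin (g ^ (4 * j.val)) => (⟨j, a, none⟩ : M L g) := by
          intro m hm
          obtain ⟨b, hb, rfl⟩ := mem_image.1 hm
          obtain ⟨h1, h2⟩ := mem_filter.1 hb
          obtain ⟨y, -, rfl⟩ := mem_map.1 h1
          rw [(c _).resolve_left h2]
          exact mem_image.2 ⟨y.1, mem_univ _, rfl⟩
        exact (card_le_card this).trans (card_image_le.trans (by simp [kap]))
      have a1 := jobs_le τ N
      rw [sum_congr rfl (g := fun _ => g ^ (2 * (L - j.val))) fun b hb => by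
        obtain ⟨h1, h2⟩ := mem_filter.1 hb
        obtain ⟨y, -, rfl⟩ := mem_map.1 h1
        rw [P, if_neg h2, if_pos ((c _).resolve_left h2)]; rfl, sum_const, smul_eq_mul] at a1
      have a2 : g * opt L g j true = g ^ (4 * j.val + 2) * g ^ (2 * (L - j.val)) := by
        simp only [opt, if_true]
        rw [← pow_succ', ← pow_add]; congr 1; omega
      rw [a2, ← hc]
      nlinarith [Nat.mul_le_mul_right (g ^ (2 * (L - j.val))) (not_le.1 c2).le]
  · push Not at c
    obtain ⟨b, h1, h2⟩ := c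
    refine ⟨false, ({b} : Finset _).image τ, ?_, ?_⟩
    · simp only [image_singleton, card_singleton, kap]
      exact Nat.one_le_pow _ _ hg
    · have a1 := jobs_le τ {b}
      rw [sum_singleton, P, if_neg h1, if_neg h2] at a1
      have : g * opt L g j false ≤ g ^ (6 * L + 3) := by
        simp only [opt, Bool.false_eq_true, if_false]
        rw [← pow_succ']; exact Nat.pow_le_pow_right hg (by omega)
      omega

end inst

theorem core (α : ℝ) (hα : 1 ≤ α) (L g : ℕ) (hL : 0 < L) (hg : 1 ≤ g)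
    (hb : 2 * α * (L * (L + 1)) < g) {d n : ℕ} (e : M L g ≃ Fin d) (f : Jb L g ≃ Fin n)
    (X : Finset (Fin d → ℝ))
    (hX : IsPortfolio α (Set.range (load fun i t => (P (e.symm i) (f.symm t) : ℝ))) X) :
    2 ^ L ≤ #X := by
  have hl : ∀ (σ : Fin n → Fin d) (i : Fin d),
      load (fun i t => (P (e.symm i) (f.symm t) : ℝ)) σ i =
        (ld (fun b => e.symm (σ (f b))) (e.symm i) : ℝ) := by
    intro σ i
    simp only [load, ld, sum_filter, Nat.cast_sum, Nat.cast_ite, Nat.cast_zero]
    rw [← f.sum_comp]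
    simp
  have hopt : ∀ j β, (0 : ℝ) < opt L g j β := fun j β => by
    unfold opt; split_ifs <;> positivity
  have hkap : ∀ j β, 0 < kap g j β := fun j β => by
    unfold kap; split_ifs <;> positivity
  let w : (Fin L → Bool) → Fin d → ℝ := fun s k =>
    ∑ j : Fin L, if k.val < kap g j (s j) then (opt L g j (s j) : ℝ)⁻¹ else 0
  have hw : ∀ s x, ord (w s) x = ∑ j : Fin L, (opt L g j (s j) : ℝ)⁻¹ * T (kap g j (s j)) x := by
    intro s x
    simp only [ord, w, T, sum_mul, mul_sum, sum_filter]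
    rw [sum_comm]
    refine sum_congr rfl fun j _ => sum_congr rfl fun k _ => ?_
    split_ifs <;> simp
  have hw0 : ∀ (s : Fin L → Bool) (k : Fin d) (j : Fin L), (0 : ℝ) ≤
      if (k : Fin d).val < kap g j (s j) then (opt L g j (s j) : ℝ)⁻¹ else 0 := fun s k j => by
    split_ifs <;> positivity
  have key : ∀ s : Fin L → Bool, ∃ x ∈ (X : Set (Fin d → ℝ)),
      ord (w s) x ≤ α * (L * (L + 1)) := by
    intro s
    obtain ⟨x, hx, h⟩ := hX.2 (w s) (fun a b hab => sum_le_sum fun j _ => by
        have : a.val ≤ b.val := hab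
        have := (hopt j (s j)).le
        split_ifs <;> first | rfl | omega | positivity)
      (fun k => sum_nonneg fun j _ => hw0 s k j) (fun h0 => by
        let m0 : M L g := ⟨⟨0, hL⟩, ⟨0, by positivity⟩, none⟩
        have h1 := congrFun h0 ⟨0, (e m0).pos⟩
        have h2 := (sum_eq_zero_iff_of_nonneg fun j _ => hw0 s _ j).1 h1 ⟨0, hL⟩ (mem_univ _)
        rw [if_pos (hkap _ _)] at h2
        exact (inv_pos.2 (hopt _ _)).ne' h2)
      _ ⟨fun t => e (sch s (f.symm t)), rfl⟩
    refine ⟨x, hx, h.trans (mul_le_mul_of_nonneg_left ?_ (by linarith))⟩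
    rw [hw]
    refine (sum_le_card_nsmul _ _ ((L : ℝ) + 1) fun j _ => ?_).trans (by simp [mul_add])
    obtain ⟨a, v, h1, h2⟩ := good hg s j
    rw [inv_mul_le_iff₀ (hopt _ _)]
    refine (Tup (a := a) (v := fun i => v (e.symm i)) (by positivity) (fun _ => by positivity)
      (fun i => ?_) _).trans ?_
    · rw [hl]
      simp only [Equiv.symm_apply_apply]
      exact_mod_cast h1 _
    · rw [e.symm.sum_comp fun m => (v m : ℝ), mul_comm (opt L g j (s j) : ℝ)]
      exact_mod_cast h2
  choose F hF1 hF2 using key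
  have hinj : Function.Injective F := by
    intro s s' hs
    funext j
    by_contra hne
    obtain ⟨σ, hσ⟩ := hX.1 (hF1 s)
    have hx0 : ∀ i, 0 ≤ F s i := fun i => by rw [← hσ, hl]; positivity
    obtain ⟨β, S, h1, h2⟩ := bad hg (fun b => e.symm (σ (f b))) j
    have h3 := Tlow hx0 (κ := kap g j β) (S.map e.toEmbedding) (by rw [card_map]; exact h1)
    rw [sum_map] at h3
    have h4 : (g : ℝ) * opt L g j β ≤ 2 * T (kap g j β) (F s) := by
      refine le_trans ?_ (mul_le_mul_of_nonneg_left h3 (by norm_num))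
      simp only [← hσ, hl, Equiv.coe_toEmbedding, Equiv.symm_apply_apply]
      exact_mod_cast h2
    obtain ⟨t, ht, ht'⟩ : ∃ t, t j = β ∧ F t = F s := by
      by_cases c : s j = β
      · exact ⟨s, c, rfl⟩
      · refine ⟨s', ?_, hs.symm⟩
        revert c hne; cases s j <;> cases s' j <;> cases β <;> simp
    have h5 := hF2 t
    rw [hw, ht'] at h5
    have h6 := single_le_sum (f := fun j : Fin L =>
      (opt L g j (t j) : ℝ)⁻¹ * T (kap g j (t j)) (F s))
      (fun j _ => mul_nonneg (by positivity) (sum_nonneg fun k _ => hx0 _)) (mem_univ j)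
    simp only [ht] at h6
    have h7 := (inv_mul_le_iff₀ (hopt j β)).1 (h6.trans h5)
    nlinarith [hopt j β, mul_lt_mul_of_pos_right hb (hopt j β)]
  have := card_le_card_of_injOn (s := univ) (t := X) F (fun s _ => hF1 s) hinj.injOn
  simpa using this

theorem result : ∀ (α C : ℝ) (k : ℕ), 1 ≤ α → 0 < C → ∃ d n : ℕ, 2 ≤ d ∧ 1 ≤ n ∧
    ∃ p : Fin d → Fin n → ℝ, (∀ i j, 0 ≤ p i j) ∧ ∀ X : Finset (Fin d → ℝ),
      IsPortfolio α (Set.range (load p)) X → C * Real.log d ^ k < #X := by
  intro α C k hα hC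
  have h1 := (tendsto_pow_const_div_const_pow_of_one_lt (2 * k)
    (show (1 : ℝ) < 2 by norm_num)).eventually
    (gt_mem_nhds (show 0 < 1 / (C * 24 ^ k) by positivity))
  obtain ⟨L, hL1, hL2⟩ := (h1.and (Filter.eventually_ge_atTop (⌈4 * α⌉₊ + 2))).exists
  have hL3 : 4 * α + 2 ≤ L := by
    have := Nat.le_ceil (4 * α)
    have : ((⌈4 * α⌉₊ + 2 : ℕ) : ℝ) ≤ L := by exact_mod_cast hL2
    push_cast at this; linarith
  have hL : 2 ≤ L := by omega
  have hLg : L ≤ L ^ 3 := Nat.le_self_pow (by norm_num) L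
  set g := L ^ 3 with hgd
  let b0 : Jb L g := ⟨⟨0, by omega⟩, ⟨0, by positivity⟩, ⟨0, by positivity⟩⟩
  have hd2 : 2 ≤ Fintype.card (M L g) := Fintype.one_lt_card_iff.2 ⟨_, _, wn b0 b0⟩
  have hd : Fintype.card (M L g) ≤ L ^ (12 * L + 12) := by
    rw [Fintype.card_sigma]
    refine (sum_le_card_nsmul _ _ (g ^ (4 * L) * g ^ 3) fun j _ => ?_).trans ?_
    · simp only [Fintype.card_prod, Fintype.card_fin, Fintype.card_option]
      refine Nat.mul_le_mul (Nat.pow_le_pow_right (by omega) (by omega)) ?_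
      have : 1 ≤ g ^ 2 := Nat.one_le_pow _ _ (by omega)
      rw [pow_succ g 2]; nlinarith
    · rw [card_univ, Fintype.card_fin, smul_eq_mul, ← pow_add, hgd, ← pow_mul, ← pow_succ']
      exact Nat.pow_le_pow_right (by omega) (by omega)
  refine ⟨Fintype.card (M L g), Fintype.card (Jb L g), hd2, Fintype.card_pos_iff.2 ⟨b0⟩,
    fun i t => (P ((Fintype.equivFin _).symm i) ((Fintype.equivFin _).symm t) : ℝ),
    fun _ _ => by positivity, fun X hX => ?_⟩
  have hLr : (2 : ℝ) ≤ L := by exact_mod_cast hL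
  have h2 := core α hα L g (by omega) (by omega) (by
    rw [hgd]; push_cast
    have : 0 < (L : ℝ) * L := by positivity
    nlinarith) _ _ X hX
  have h3 : Real.log (Fintype.card (M L g)) ≤ 24 * (L : ℝ) ^ 2 := by
    have a1 : Real.log (Fintype.card (M L g)) ≤ Real.log ((L : ℝ) ^ (12 * L + 12)) :=
      Real.log_le_log (by positivity) (by exact_mod_cast hd)
    rw [Real.log_pow] at a1
    have a2 : Real.log L ≤ L := (Real.log_le_sub_one_of_pos (by positivity)).trans (by linarith)
    have a3 : 0 ≤ Real.log L := Real.log_natCast_nonneg L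
    push_cast at a1
    nlinarith
  have h4 : (2 : ℝ) ^ L ≤ #X := by exact_mod_cast h2
  rw [div_lt_div_iff₀ (by positivity) (by positivity)] at hL1
  have h5 := pow_le_pow_left₀ (Real.log_natCast_nonneg _) h3 k
  rw [mul_pow, ← pow_mul (L : ℝ) 2 k] at h5
  nlinarith [mul_le_mul_of_nonneg_left h5 hC.le]

end Pool.Agent.Results.MP_61ce55_lc.NotLog
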